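import Pool.Agent.Work.MP_f3c012_al.AdjC
import Pool.Agent.Work.MP_f3c012_al.AdjD

/-!
# Balanced Golod-Shafarevich groups with finite abelianization of all finite index subgroups above
the kernel of a map onto a given finitely presented group with (FAb)
-/

set_option autoImplicit false
set_option linter.style.haveILetI false

namespace Pool.Agent.Results.MP_f3c012_al.AdjointRelators

/-- The augmentation ideal `M` of the group algebra `F_p[F]` of the free group `F` of rank `d`
(the span of the elements `g - 1`). -/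
noncomputable def augIdeal (p d : ℕ) :
    Submodule (ZMod p) (MonoidAlgebra (ZMod p) (FreeGroup (Fin d))) :=
  Submodule.span (ZMod p)
    (Set.range fun g : FreeGroup (Fin d) => MonoidAlgebra.of (ZMod p) (FreeGroup (Fin d)) g - 1)

/-- The Zassenhaus filtration: `g ∈ D_n` if and only if `g - 1 ∈ M^n`. -/
def D (p d n : ℕ) : Set (FreeGroup (Fin d)) :=
  {g | MonoidAlgebra.of (ZMod p) (FreeGroup (Fin d)) g - 1 ∈ augIdeal p d ^ n}

/-- `deg r = k`: `r ∈ D_k` and `r ∉ D_(k+1)`. -/
def HasDeg (p d : ℕ) (r : FreeGroup (Fin d)) (k : ℕ) : Prop := r ∈ D p d k ∧ r ∉ D p d (k + 1)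

/-- The group `G` is Golod-Shafarevich with respect to `p`: it has a presentation with `d`
generators and a set `R` of nontrivial relators with `1 - d t + ∑_(r ∈ R) t^(deg r) < 0` for some
`t ∈ (0, 1)`. -/
def GolodShafarevich (p : ℕ) (G : Type) [Group G] : Prop :=
  ∃ (d : ℕ) (R : Set (FreeGroup (Fin d))), 1 ∉ R ∧ Nonempty (G ≃* PresentedGroup R) ∧
    ∃ deg : R → ℕ, (∀ r : R, HasDeg p d r (deg r)) ∧
      ∃ t : ℝ, 0 < t ∧ t < 1 ∧ Summable (fun r : R => t ^ deg r) ∧
        1 - (d : ℝ) * t + ∑' r : R, t ^ deg r < 0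

/-- Property (FAb): every subgroup of finite index has finite abelianization. -/
def FAb (G : Type) [Group G] : Prop :=
  ∀ H : Subgroup G, H.index ≠ 0 → Finite (Abelianization H)

open Pool.Agent.Work.MP_f3c012_al Subgroup

theorem result (k : ℕ) (R : Set (FreeGroup (Fin k))) (hR : R.Finite)
    (hΓ : FAb (PresentedGroup R)) (n : ℕ) :
    ∃ (s : Fin k → FreeGroup (Fin k)) (φ : PresentedGroup (Set.range s) →* PresentedGroup R),
      Function.Surjective φ ∧
      (∀ L H : Subgroup (PresentedGroup (Set.range s)), L.index ≠ 0 → L.index ≤ n →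
        H.index ≠ 0 → φ.ker ⊓ L ≤ H → Finite (Abelianization H)) ∧
      ∀ p : ℕ, p.Prime → 3 ≤ k → R ⊆ D p k 2 →
        GolodShafarevich p (PresentedGroup (Set.range s)) := by
  classical
  haveI := KN_finiteIndex k (n + 1)
  haveI : (KN k (n + 1)).Normal := by
    unfold KN
    refine Subgroup.normal_iInf_normal fun i => Subgroup.normal_iInf_normal fun φ => ?_
    infer_instance
  obtain ⟨L', hL'⟩ := inf_normalClosure (FreeGroup.of : Fin k → FreeGroup (Fin k))
    (FreeGroup.closure_range_of _) R hR (KN k (n + 1))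
  let φ₀ : FreeGroup (Fin k) →* PresentedGroup R := PresentedGroup.mk R
  have hφ₀ : Function.Surjective φ₀ := QuotientGroup.mk'_surjective _
  have hφ₀k : φ₀.ker = normalClosure R := QuotientGroup.ker_mk' _
  let ψ : FreeGroup (Fin k) →* PresentedGroup {r | r ∈ L'} := PresentedGroup.mk _
  have hψ : Function.Surjective ψ := QuotientGroup.mk'_surjective _
  have hψk : ψ.ker = normalClosure {r | r ∈ L'} := QuotientGroup.ker_mk' _
  have hfab := fab_inf (normalClosure R) (KN k (n + 1)) φ₀ hφ₀ hφ₀k hΓ ψ hψ (hψk.trans hL')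
  let s : Fin k → FreeGroup (Fin k) := sadj L'
  let π : FreeGroup (Fin k) →* PresentedGroup (Set.range s) := PresentedGroup.mk _
  have hπ : Function.Surjective π := QuotientGroup.mk'_surjective _
  have hπs : ∀ i, π (sadj L' i) = 1 := fun i =>
    (QuotientGroup.eq_one_iff _).2 (subset_normalClosure ⟨i, rfl⟩)
  have hL'R : ∀ r ∈ L', r ∈ normalClosure R := by
    intro r hr
    have h1 : r ∈ normalClosure {r | r ∈ L'} := subset_normalClosure hr
    rw [hL'] at h1
    exact h1.1
  have hsR : ∀ i, s i ∈ normalClosure R := fun i => sadj_mem _ L' hL'R i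
  let φ : PresentedGroup (Set.range s) →* PresentedGroup R :=
    QuotientGroup.lift _ φ₀ (by
      intro g hg
      have h1 : normalClosure (Set.range s) ≤ φ₀.ker := by
        rw [hφ₀k]
        refine normalClosure_le_normal ?_
        rintro _ ⟨i, rfl⟩
        exact hsR i
      exact h1 hg)
  have hφπ : ∀ g, φ (π g) = φ₀ g := fun g => rfl
  have hφ : Function.Surjective φ := by
    intro y
    obtain ⟨g, rfl⟩ := hφ₀ y
    exact ⟨π g, hφπ g⟩
  have hmain : ∀ L H : Subgroup (PresentedGroup (Set.range s)), L.index ≠ 0 → L.index ≤ n + 1 →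
      H.index ≠ 0 → φ.ker ⊓ L ≤ H → Finite (Abelianization H) := by
    intro L H hL hLn hH hle
    refine finite_ab_above L' ψ hψ hψk hfab π hπ hπs H hH ?_
    rw [hL']
    rintro _ ⟨g, ⟨hg1, hg2⟩, rfl⟩
    apply hle
    refine ⟨?_, ?_⟩
    · show φ (π g) = 1
      rw [hφπ]
      have : g ∈ φ₀.ker := by rw [hφ₀k]; exact hg1
      exact this
    · have h1 : (L.comap π).index = L.index := Subgroup.index_comap_of_surjective _ hπ
      exact KN_le k (n + 1) (L.comap π) (by rw [h1]; exact hL) (by rw [h1]; exact hLn) hg2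
  refine ⟨s, φ, hφ, fun L H hL hLn => hmain L H hL (by omega), ?_⟩
  intro p hp hk hRD
  haveI : Fact p.Prime := ⟨hp⟩
  haveI htop : Finite (Abelianization (PresentedGroup (Set.range s))) := by
    have h1 := hmain ⊤ ⊤ (by simp) (by simp) (by simp) le_top
    have e : (⊤ : Subgroup (PresentedGroup (Set.range s))) ≃* PresentedGroup (Set.range s) :=
      Subgroup.topEquiv
    exact Finite.of_equiv _ (e.abelianizationCongr).toEquiv
  have hexpo : ∀ i, ∃ v : Fin k → ℤ, expo k v (s i) ≠ 1 := fun i => expo_ne k s i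
  have hRz : normalClosure R ≤ zas p (FreeGroup (Fin k)) 1 := normalClosure_le_normal hRD
  have hs3 : ∀ i, s i ∈ zas p (FreeGroup (Fin k)) 2 := fun i =>
    sadj_zas p L' (fun r hr => hRz (hL'R r hr)) i
  have hall : ∀ i, ∃ m, 3 ≤ m ∧ HasDeg p k (s i) m := by
    intro i
    obtain ⟨v, hv⟩ := hexpo i
    obtain ⟨m, hm, h1, h2⟩ := exists_deg p k v (s i) hv 2 (hs3 i)
    exact ⟨m, hm, h1, h2⟩
  refine ⟨k, Set.range s, ?_, ⟨MulEquiv.refl _⟩, ?_⟩
  · rintro ⟨i, hi⟩
    obtain ⟨v, hv⟩ := hexpo i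
    rw [hi, map_one] at hv
    exact hv rfl
  have hdeg : ∀ x : Set.range s, ∃ m : ℕ, 3 ≤ m ∧ HasDeg p k x m := by
    rintro ⟨_, ⟨i, rfl⟩⟩
    exact hall i
  choose deg hk3 hdeg using hdeg
  haveI : Fintype (Set.range s) := Fintype.ofFinite _
  refine ⟨deg, hdeg, 3 / 5, by norm_num, by norm_num, Summable.of_finite, ?_⟩
  rw [tsum_fintype]
  have hc : Fintype.card (Set.range s) ≤ k := by
    have := Fintype.card_le_of_surjective (Set.rangeFactorization s)
      Set.rangeFactorization_surjective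
    simpa using this
  have hs : ∑ x : Set.range s, ((3 : ℝ) / 5) ^ deg x ≤ (k : ℝ) * (3 / 5) ^ 3 := by
    calc ∑ x : Set.range s, ((3 : ℝ) / 5) ^ deg x
        ≤ ∑ _x : Set.range s, ((3 : ℝ) / 5) ^ 3 := by
          refine Finset.sum_le_sum fun x _ => ?_
          exact pow_le_pow_of_le_one (by norm_num) (by norm_num) (hk3 x)
      _ = (Fintype.card (Set.range s) : ℝ) * (3 / 5) ^ 3 := by
          rw [Finset.sum_const, Finset.card_univ, nsmul_eq_mul]
      _ ≤ (k : ℝ) * (3 / 5) ^ 3 := by
          have : (Fintype.card (Set.range s) : ℝ) ≤ k := by exact_mod_cast hc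
          gcongr
  have hd3 : (3 : ℝ) ≤ k := by exact_mod_cast hk
  norm_num at hs ⊢
  nlinarith

end Pool.Agent.Results.MP_f3c012_al.AdjointRelators
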