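import Pool.Agent.Work.MP_f3c012_al.C
import Pool.Agent.Work.MP_f3c012_al.D
import Pool.Agent.Work.MP_f3c012_al.U

/-!
# Balanced Golod-Shafarevich groups with finite abelianization of all subgroups which can be
reached by a short chain of steps which are abelian or of small index
-/

set_option autoImplicit false
set_option linter.style.haveILetI false

namespace Pool.Agent.Results.MP_f3c012_al.BoundedLength

/-- The augmentation ideal `M` of the group algebra `F_p[F]` of the free group `F` of rank `d`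
(the span of the elements `g - 1`). -/
noncomputable def augIdeal (p d : ℕ) :
    Submodule (ZMod p) (MonoidAlgebra (ZMod p) (FreeGroup (Fin d))) :=
  Submodule.span (ZMod p)
    (Set.range fun g : FreeGroup (Fin d) => MonoidAlgebra.of (ZMod p) (FreeGroup (Fin d)) g - 1)

/-- The Zassenhaus filtration: `g ∈ D_n` if and only if `g - 1 ∈ M^n`. -/
def D (p d n : ℕ) : Set (FreeGroup (Fin d)) :=
  {g | MonoidAlgebra.of (ZMod p) (FreeGroup (Fin d)) g - 1 ∈ augIdeal p d ^ n}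

/-- `deg r = k`: `r ∈ D_k` and `r ∉ D_(k+1)`. -/
def HasDeg (p d : ℕ) (r : FreeGroup (Fin d)) (k : ℕ) : Prop := r ∈ D p d k ∧ r ∉ D p d (k + 1)

/-- The group `G` is Golod-Shafarevich with respect to `p`: it has a presentation with `d`
generators and a set `R` of nontrivial relators with `1 - d t + ∑_(r ∈ R) t^(deg r) < 0` for some
`t ∈ (0, 1)`. -/
def GolodShafarevich (p : ℕ) (G : Type) [Group G] : Prop :=
  ∃ (d : ℕ) (R : Set (FreeGroup (Fin d))), 1 ∉ R ∧ Nonempty (G ≃* PresentedGroup R) ∧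
    ∃ deg : R → ℕ, (∀ r : R, HasDeg p d r (deg r)) ∧
      ∃ t : ℝ, 0 < t ∧ t < 1 ∧ Summable (fun r : R => t ^ deg r) ∧
        1 - (d : ℝ) * t + ∑' r : R, t ^ deg r < 0

open Pool.Agent.Work.MP_f3c012_al Subgroup

theorem result (d : ℕ) (hd : 2 ≤ d) (N m k : ℕ) (f : ℕ → ℕ) :
    ∃ r : Fin d → FreeGroup (Fin d),
      (∀ p : ℕ, p.Prime → p ≤ N → GolodShafarevich p (PresentedGroup (Set.range r))) ∧
      (∀ p : ℕ, p.Prime → p ≤ N → ∀ i, ∃ n, m ≤ n ∧ HasDeg p d (r i) n) ∧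
      ∀ Q : ℕ → Subgroup (PresentedGroup (Set.range r)), Q 0 = ⊤ →
        (∀ i < k, Q (i + 1) ≤ Q i ∧ (⁅Q i, Q i⁆ ≤ Q (i + 1) ∨
          ((Q (i + 1)).relIndex (Q i) ≠ 0 ∧ (Q (i + 1)).relIndex (Q i) ≤ f (Q i).index))) →
        (Q k).index ≠ 0 ∧
          ∀ H : Subgroup (PresentedGroup (Set.range r)), Q k ≤ H →
            Finite (Abelianization H) := by
  classical
  -- a monotone bound
  let f' : ℕ → ℕ := fun n => (Finset.range (n + 1)).sup f
  have hf' : Monotone f' := fun a b hab =>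
    Finset.sup_mono (Finset.range_mono (Nat.succ_le_succ hab))
  have hff' : ∀ n, f n ≤ f' n := fun n =>
    Finset.le_sup (f := f) (Finset.mem_range.2 (Nat.lt_succ_self n))
  -- the subgroup `K`
  have hz : ∀ p : Fin (N + 1), ∃ K : Subgroup (FreeGroup (Fin d)), K.FiniteIndex ∧
      ((p : ℕ).Prime → ∀ g ∈ K, MonoidAlgebra.of (ZMod p) (FreeGroup (Fin d)) g - 1 ∈
        aug p (FreeGroup (Fin d)) ^ (m + 4 + 1)) := by
    intro p
    by_cases hp : (p : ℕ).Prime
    · haveI : Fact (p : ℕ).Prime := ⟨hp⟩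
      obtain ⟨K, hK, h⟩ := exists_zas (p : ℕ) (FreeGroup (Fin d)) (m + 4)
      exact ⟨K, hK, fun _ => h⟩
    · exact ⟨⊤, inferInstance, fun h => absurd h hp⟩
  choose Z hZ hZ2 using hz
  let K0 : Subgroup (FreeGroup (Fin d)) := ⨅ p, Z p
  haveI hK0 : K0.FiniteIndex := Subgroup.finiteIndex_iInf hZ
  let K : Subgroup (FreeGroup (Fin d)) := K0.normalCore
  haveI hK : K.FiniteIndex := inferInstance
  haveI : K.Normal := inferInstance
  have hK2 : ∀ p, K ≤ Z p := fun p => (Subgroup.normalCore_le K0).trans (iInf_le _ p)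
  -- the relators
  obtain ⟨r, hrK, hr⟩ := tower' (FreeGroup.of : Fin d → FreeGroup (Fin d))
    (FreeGroup.closure_range_of _) K f' hf' k
  let G := PresentedGroup (Set.range r)
  let π : FreeGroup (Fin d) →* G := PresentedGroup.mk (Set.range r)
  have hπ : Function.Surjective π := QuotientGroup.mk'_surjective _
  have hπk : π.ker = Subgroup.normalClosure (Set.range r) := QuotientGroup.ker_mk' _
  obtain ⟨hidx, hfin⟩ := hr G π hπ hπk
  haveI : ((VV f')^[k] (⊤ : Subgroup G)).FiniteIndex := ⟨hidx⟩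
  have hall2 : ∀ Q : ℕ → Subgroup G, Q 0 = ⊤ →
        (∀ i < k, Q (i + 1) ≤ Q i ∧ (⁅Q i, Q i⁆ ≤ Q (i + 1) ∨
          ((Q (i + 1)).relIndex (Q i) ≠ 0 ∧ (Q (i + 1)).relIndex (Q i) ≤ f (Q i).index))) →
        (Q k).index ≠ 0 ∧ ∀ H : Subgroup G, Q k ≤ H → Finite (Abelianization H) := by
    intro Q hQ0 hQ
    have h2 : (VV f')^[k] (⊤ : Subgroup G) ≤ Q k := by
      refine VV_chain hf' k hidx Q hQ0 fun i hi => ?_
      obtain ⟨h3, h4 | ⟨h4, h5⟩⟩ := hQ i hi
      · exact ⟨h3, Or.inl h4⟩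
      · exact ⟨h3, Or.inr ⟨h4, h5.trans (hff' _)⟩⟩
    refine ⟨?_, fun H hH => hfin H (h2.trans hH)⟩
    haveI : (Q k).FiniteIndex := Subgroup.finiteIndex_of_le h2
    exact Subgroup.FiniteIndex.index_ne_zero
  haveI htop : Finite (Abelianization G) := by
    have h1 := hfin ⊤ le_top
    have e : (⊤ : Subgroup G) ≃* G := Subgroup.topEquiv
    exact Finite.of_equiv _ (e.abelianizationCongr).toEquiv
  have hexpo : ∀ i, ∃ v : Fin d → ℤ, expo d v (r i) ≠ 1 := fun i => expo_ne d r i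
  have hD : ∀ p : ℕ, p.Prime → p ≤ N → ∀ i,
      MonoidAlgebra.of (ZMod p) (FreeGroup (Fin d)) (r i) - 1 ∈
      aug p (FreeGroup (Fin d)) ^ (m + 4 + 1) := fun p hp hpN i =>
    hZ2 (⟨p, by omega⟩ : Fin (N + 1)) hp (r i) (hK2 _ (hrK i))
  have hall : ∀ p : ℕ, p.Prime → p ≤ N → ∀ i, ∃ k, m + 4 + 1 ≤ k ∧ HasDeg p d (r i) k := by
    intro p hp hpN i
    haveI : Fact p.Prime := ⟨hp⟩
    obtain ⟨v, hv⟩ := hexpo i
    obtain ⟨k, hk, h1, h2⟩ := exists_deg p d v (r i) hv (m + 4) (hD p hp hpN i)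
    exact ⟨k, hk, h1, h2⟩
  refine ⟨r, ?_, fun p hp hpN i => ?_, hall2⟩
  swap
  · obtain ⟨k, hk, h⟩ := hall p hp hpN i
    exact ⟨k, by omega, h⟩
  intro p hp hpN
  refine ⟨d, Set.range r, ?_, ⟨MulEquiv.refl _⟩, ?_⟩
  · rintro ⟨i, hi⟩
    obtain ⟨v, hv⟩ := hexpo i
    rw [hi, map_one] at hv
    exact hv rfl
  have hdeg : ∀ x : Set.range r, ∃ k : ℕ, 4 + 1 ≤ k ∧ HasDeg p d x k := by
    rintro ⟨_, ⟨i, rfl⟩⟩
    obtain ⟨k, hk, h⟩ := hall p hp hpN i
    exact ⟨k, by omega, h⟩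
  choose deg hk5 hdeg using hdeg
  haveI : Fintype (Set.range r) := Fintype.ofFinite _
  refine ⟨deg, hdeg, 3 / 4, by norm_num, by norm_num, Summable.of_finite, ?_⟩
  rw [tsum_fintype]
  have hc : Fintype.card (Set.range r) ≤ d := by
    have := Fintype.card_le_of_surjective (Set.rangeFactorization r) Set.rangeFactorization_surjective
    simpa using this
  have hs : ∑ x : Set.range r, ((3 : ℝ) / 4) ^ deg x ≤ (d : ℝ) * (3 / 4) ^ 5 := by
    calc ∑ x : Set.range r, ((3 : ℝ) / 4) ^ deg x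
        ≤ ∑ _x : Set.range r, ((3 : ℝ) / 4) ^ 5 := by
          refine Finset.sum_le_sum fun x _ => ?_
          exact pow_le_pow_of_le_one (by norm_num) (by norm_num) (hk5 x)
      _ = (Fintype.card (Set.range r) : ℝ) * (3 / 4) ^ 5 := by
          rw [Finset.sum_const, Finset.card_univ, nsmul_eq_mul]
      _ ≤ (d : ℝ) * (3 / 4) ^ 5 := by
          have : (Fintype.card (Set.range r) : ℝ) ≤ d := by exact_mod_cast hc
          gcongr
  have hd2 : (2 : ℝ) ≤ d := by exact_mod_cast hd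
  norm_num at hs ⊢
  nlinarith

end Pool.Agent.Results.MP_f3c012_al.BoundedLength
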