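import Pool.Agent.Work.MP_f3c012_al.Df.All

/-!
# Golod-Shafarevich groups with three generators and seven relators with (FH) and (FAb)
-/

set_option autoImplicit false

namespace Pool.Agent.Results.MP_f3c012_al.DeficiencyFour

/-- The augmentation ideal `M` of the group algebra `F_p[F]` of the free group `F` of rank `d`
(the span of the elements `g - 1`). -/
noncomputable def augIdeal (p d : ℕ) :
    Submodule (ZMod p) (MonoidAlgebra (ZMod p) (FreeGroup (Fin d))) :=
  Submodule.span (ZMod p)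
    (Set.range fun g : FreeGroup (Fin d) => MonoidAlgebra.of (ZMod p) (FreeGroup (Fin d)) g - 1)

/-- The Zassenhaus filtration: `g ∈ D_n` if and only if `g - 1 ∈ M^n`. -/
def D (p d n : ℕ) : Set (FreeGroup (Fin d)) :=
  {g | MonoidAlgebra.of (ZMod p) (FreeGroup (Fin d)) g - 1 ∈ augIdeal p d ^ n}

/-- `deg r = k`: `r ∈ D_k` and `r ∉ D_(k+1)`. -/
def HasDeg (p d : ℕ) (r : FreeGroup (Fin d)) (k : ℕ) : Prop := r ∈ D p d k ∧ r ∉ D p d (k + 1)

/-- The group `G` is Golod-Shafarevich with respect to `p`: it has a presentation with `d`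
generators and a set `R` of nontrivial relators with `1 - d t + ∑_(r ∈ R) t^(deg r) < 0` for some
`t ∈ (0, 1)`. -/
def GolodShafarevich (p : ℕ) (G : Type) [Group G] : Prop :=
  ∃ (d : ℕ) (R : Set (FreeGroup (Fin d))), 1 ∉ R ∧ Nonempty (G ≃* PresentedGroup R) ∧
    ∃ deg : R → ℕ, (∀ r : R, HasDeg p d r (deg r)) ∧
      ∃ t : ℝ, 0 < t ∧ t < 1 ∧ Summable (fun r : R => t ^ deg r) ∧
        1 - (d : ℝ) * t + ∑' r : R, t ^ deg r < 0

/-- Property (FAb): every subgroup of finite index has finite abelianization. -/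
def FAb (G : Type) [Group G] : Prop :=
  ∀ H : Subgroup G, H.index ≠ 0 → Finite (Abelianization H)

/-- Property (FH): every cocycle `c` of `G` with values in an orthogonal representation `ρ` on a real
Hilbert space is a coboundary. -/
def FH (G : Type) [Group G] : Prop :=
  ∀ (V : Type) [NormedAddCommGroup V] [InnerProductSpace ℝ V] [CompleteSpace V]
    (ρ : G →* (V ≃ₗᵢ[ℝ] V)) (c : G → V), (∀ g h, c (g * h) = c g + ρ g (c h)) →
    ∃ v, ∀ g, c g = v - ρ g v

section

variable {G : Type*} [Group G]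

/-- the commutator `[a, b] = a⁻¹ b⁻¹ a b` -/
def comm (a b : G) : G := a⁻¹ * b⁻¹ * a * b

/-- the conjugate `y^(x^i) = x^(-i) y x^i` -/
def conj (x y : G) (i : ℤ) : G := x ^ (-i) * y * x ^ i

/-- the conjugate `T(x, y)` of `[y, x, x, x]` by the inverse of `y^(x^2)` -/
def T (x y : G) : G := conj x y 2 * comm (comm (comm y x) x) x * (conj x y 2)⁻¹

/-- the seven words `y^p`, `[y, [y, x]] z^(-p²)`, `[T(x, y), x]`, `[y, [y, z]]`, `[T(z, y), z]`,
`[z, [z, x]]`, `T(x, z) x^(-p)` -/
def words (p : ℕ) (x y z : G) : Fin 7 → G :=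
  ![y ^ p, comm y (comm y x) * (z ^ (p ^ 2))⁻¹, comm (T x y) x, comm y (comm y z), comm (T z y) z,
    comm z (comm z x), T x z * (x ^ p)⁻¹]

end

/-- the seven relators, in the free group of rank three -/
def relators (p : ℕ) : Set (FreeGroup (Fin 3)) :=
  Set.range (words p (FreeGroup.of 0) (FreeGroup.of 1) (FreeGroup.of 2))

theorem result (p : ℕ) (hp : p.Prime) (h : 37 ≤ p) :
    GolodShafarevich p (PresentedGroup (relators p)) ∧ FH (PresentedGroup (relators p)) ∧
      FAb (PresentedGroup (relators p)) := by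
  obtain ⟨h1, deg, h2, h3, h4⟩ := Pool.Agent.Work.MP_f3c012_al.Df.degrees p hp h
  obtain ⟨h5, h6⟩ := Pool.Agent.Work.MP_f3c012_al.Df.properties p hp h
  exact ⟨⟨3, relators p, h1, ⟨MulEquiv.refl _⟩, deg, h2, 12 / 25, by norm_num, by norm_num,
    h3, by exact_mod_cast h4⟩, h5, h6⟩

end Pool.Agent.Results.MP_f3c012_al.DeficiencyFour
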